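import Pool.Agent.Q20.SI.Rel

/-!
# The rational form of the rank one abelian Stark conjecture
-/

set_option autoImplicit false

namespace Pool.Agent.Results.MP_ca56d1_nt.RationalTateForm

open NumberField Pool.Agent.Q20.RS Pool.Agent.Q20.SI

/-- **Theorem.** Let `F` be a number field.
(1) For the data `(K/F, S, 𝔭)` of the question, `Q1` holds up to powers (there are `m > 0` and
`ε ∈ U^T_{S,K}` with `log |g ε|_v = - m ζ_S'(g, 0)` for all `g`) if and only if Stark's equality
`A(χ)^σ = A(χ^σ)` holds for all automorphisms `σ` of `ℂ` and the nontrivial characters `χ` with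
order of vanishing one.
(2) For every smooth linear character `ψ` of `Gal(F̄/F)` there is a trivial or quadratic character
`η` which is trivial on the decomposition groups at the finite places where `ψ` is ramified, such that
`ψη` is totally odd, and, if `η ≠ 1`, finite extensions `F₁, F₂ ⊆ F₃` of `F` over which `ψ` becomes
unramified at all finite places, with `ψ + Ind ψ|F₃ = ψη + Ind ψ|F₁ + Ind ψ|F₂`, such that Stark's equality
holds for `ψ` and `σ` if and only if `d(ψη) d(ψ|F₁) d(ψ|F₂) = d(ψ|F₃)`, `d(χ) = A(χ)^σ / A(χ^σ)`.
(3) If Stark's conjecture of order `r` holds for the cyclic extensions `L/E` which are unramified at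
all finite places, `E` finite over `F`, and for the cyclic extensions `L/F` with
`r = r₂(F)` (for totally real `F` this is the theorem of Klingen and Siegel), then `Q1` holds up to
powers for all data over `F`. -/
theorem result (F : Type) [Field F] [NumberField F] :
    (∀ (K : Type) [Field K] [NumberField K] [Algebra F K] [IsGalois F K] (D : RankOneData F K),
      D.Q1 ↔ ∀ χ : (K ≃ₐ[F] K) →* ℂˣ, D.Exact χ → (∃ g, χ g ≠ 1) → ∀ σ : ℂ ≃+* ℂ,
        StarkChar χ σ) ∧
    (∀ ψ : RL.Lin (base F), ψ.smooth → OddRelation ψ) ∧
    (UnramifiedCase F → MinimalCase F → ∀ (K : Type) [Field K] [NumberField K] [Algebra F K]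
      [IsGalois F K] (D : RankOneData F K), D.Q1) :=
  ⟨fun _ _ _ _ _ D => one_iff D, fun _ hψ => odd_relation hψ,
    fun hU hM _ _ _ _ _ D => one_red_all hU hM D⟩

end Pool.Agent.Results.MP_ca56d1_nt.RationalTateForm
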